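import Mathlib

/-!
# Equality of degrees is definable in the ring of complex polynomials

The relation `deg f = deg g` on `ℂ[X]` is definable in the language of rings, even without
parameters.

Idea.  If `s` is an irreducible polynomial (that is, a polynomial of degree one) and `a` is a
constant, then `s - a` has exactly one zero, and every complex number is the zero of exactly one
`s - a`.  So zeros can be addressed by constants, and `(s - a) ∣ (h - b)` says that `h` takes the
value `b` at the zero addressed by `a`.  For nonconstant `f, g`, one has `deg f ≤ deg g` if and only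
if for every constant `c` there are a constant `d` and a polynomial `h` that maps the set of zeros
of `f - c` injectively to the set of (addresses of) zeros of `g - d`.
-/

namespace Pool.Agent.Results.MP_d395f7_lc.EqualDegreeDefinable

open Polynomial FirstOrder FirstOrder.Language

section Calculus

variable {M : Type*} [Language.ring.Structure M]

/-- Properties of assignments `ℕ → M` expressed by a formula of the language of rings. -/
def DP (P : (ℕ → M) → Prop) : Prop :=
  ∃ φ : Language.ring.Formula ℕ, ∀ v, φ.Realize v ↔ P v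

/-- Functions of assignments given by a term of the language of rings. -/
def DT (t : (ℕ → M) → M) : Prop :=
  ∃ τ : Language.ring.Term ℕ, ∀ v, τ.realize v = t v

theorem DT.var (n : ℕ) : DT (fun v : ℕ → M => v n) := ⟨Term.var n, fun _ => rfl⟩

theorem DP.congr {P Q : (ℕ → M) → Prop} (h : ∀ v, P v ↔ Q v) (hP : DP P) : DP Q := by
  obtain ⟨φ, hφ⟩ := hP
  exact ⟨φ, fun v => (hφ v).trans (h v)⟩

theorem DP.not {P : (ℕ → M) → Prop} (hP : DP P) : DP (fun v => ¬ P v) := by
  obtain ⟨φ, hφ⟩ := hP
  exact ⟨φ.not, fun v => by rw [Formula.realize_not, hφ]⟩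

theorem DP.and {P Q : (ℕ → M) → Prop} (hP : DP P) (hQ : DP Q) : DP (fun v => P v ∧ Q v) := by
  obtain ⟨φ, hφ⟩ := hP
  obtain ⟨ψ, hψ⟩ := hQ
  exact ⟨φ ⊓ ψ, fun v => by rw [Formula.realize_inf, hφ, hψ]⟩

theorem DP.or {P Q : (ℕ → M) → Prop} (hP : DP P) (hQ : DP Q) : DP (fun v => P v ∨ Q v) :=
  ((hP.not.and hQ.not).not).congr fun v => by tauto

theorem DP.imp {P Q : (ℕ → M) → Prop} (hP : DP P) (hQ : DP Q) : DP (fun v => P v → Q v) :=
  ((hP.and hQ.not).not).congr fun v => by tauto

theorem DP.ex {P : (ℕ → M) → Prop} (n : ℕ) (hP : DP P) :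
    DP (fun v => ∃ a, P (Function.update v n a)) := by
  obtain ⟨φ, hφ⟩ := hP
  refine ⟨(φ.relabel (fun m => if m = n then (Sum.inr () : ℕ ⊕ Unit) else Sum.inl m)).iExs Unit,
    fun v => ?_⟩
  rw [Formula.realize_iExs]
  constructor
  · rintro ⟨i, hi⟩
    refine ⟨i (), ?_⟩
    rw [← hφ]
    rw [Formula.realize_relabel] at hi
    convert hi using 1
    funext m
    by_cases hm : m = n
    · subst hm; simp
    · simp [hm]
  · rintro ⟨a, ha⟩
    refine ⟨fun _ => a, ?_⟩
    rw [Formula.realize_relabel]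
    rw [← hφ] at ha
    convert ha using 1
    funext m
    by_cases hm : m = n
    · subst hm; simp
    · simp [hm]

theorem DP.all {P : (ℕ → M) → Prop} (n : ℕ) (hP : DP P) :
    DP (fun v => ∀ a, P (Function.update v n a)) :=
  ((hP.not.ex n).not).congr fun v => by simp

theorem DP.eq {s t : (ℕ → M) → M} (hs : DT s) (ht : DT t) : DP (fun v => s v = t v) := by
  obtain ⟨σ, hσ⟩ := hs
  obtain ⟨τ, hτ⟩ := ht
  exact ⟨σ.equal τ, fun v => by rw [Formula.realize_equal, hσ, hτ]⟩

end Calculus

section Ring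

variable {M : Type*} [CommRing M] [FirstOrder.Ring.CompatibleRing M]

theorem DT.add {s t : (ℕ → M) → M} (hs : DT s) (ht : DT t) : DT (fun v => s v + t v) := by
  obtain ⟨σ, hσ⟩ := hs
  obtain ⟨τ, hτ⟩ := ht
  exact ⟨σ + τ, fun v => by rw [FirstOrder.Ring.realize_add, hσ, hτ]⟩

theorem DT.mul {s t : (ℕ → M) → M} (hs : DT s) (ht : DT t) : DT (fun v => s v * t v) := by
  obtain ⟨σ, hσ⟩ := hs
  obtain ⟨τ, hτ⟩ := ht
  exact ⟨σ * τ, fun v => by rw [FirstOrder.Ring.realize_mul, hσ, hτ]⟩

theorem DT.neg {s : (ℕ → M) → M} (hs : DT s) : DT (fun v => - s v) := by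
  obtain ⟨σ, hσ⟩ := hs
  exact ⟨-σ, fun v => by rw [FirstOrder.Ring.realize_neg, hσ]⟩

theorem DT.sub {s t : (ℕ → M) → M} (hs : DT s) (ht : DT t) : DT (fun v => s v - t v) := by
  obtain ⟨σ, hσ⟩ := hs.add ht.neg
  exact ⟨σ, fun v => (hσ v).trans (sub_eq_add_neg _ _).symm⟩

theorem DT.zero : DT (fun _ : ℕ → M => (0 : M)) :=
  ⟨0, fun v => FirstOrder.Ring.realize_zero v⟩

theorem DT.one : DT (fun _ : ℕ → M => (1 : M)) :=
  ⟨1, fun v => FirstOrder.Ring.realize_one v⟩

end Ring

section Poly

/-- constants of `ℂ[X]`, ring-theoretically: zero and the invertible elements -/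
def IsC (f : ℂ[X]) : Prop := f = 0 ∨ ∃ u, f * u = 1

theorem isC_iff (f : ℂ[X]) : IsC f ↔ ∃ c : ℂ, f = C c := by
  constructor
  · rintro (rfl | ⟨u, hu⟩)
    · exact ⟨0, by simp⟩
    · have : IsUnit f := IsUnit.of_mul_eq_one _ hu
      obtain ⟨r, _, hr⟩ := Polynomial.isUnit_iff.1 this
      exact ⟨r, hr.symm⟩
  · rintro ⟨c, rfl⟩
    by_cases hc : c = 0
    · left; simp [hc]
    · right
      exact ⟨C c⁻¹, by rw [← C_mul, mul_inv_cancel₀ hc, C_1]⟩

/-- `s` is irreducible, written out -/
def Irr (s : ℂ[X]) : Prop := ¬ IsC s ∧ ∀ a b, s = a * b → IsC a ∨ IsC b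

theorem irr_X : Irr (X : ℂ[X]) := by
  constructor
  · rw [isC_iff]
    rintro ⟨c, hc⟩
    have := congrArg natDegree hc
    simp at this
  · intro a b hab
    have h := (Polynomial.irreducible_X (R := ℂ)).isUnit_or_isUnit hab
    rcases h with h | h
    · left
      obtain ⟨r, _, hr⟩ := Polynomial.isUnit_iff.1 h
      exact (isC_iff _).2 ⟨r, hr.symm⟩
    · right
      obtain ⟨r, _, hr⟩ := Polynomial.isUnit_iff.1 h
      exact (isC_iff _).2 ⟨r, hr.symm⟩

/-- An irreducible polynomial has degree one. -/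
theorem Irr.linear {s : ℂ[X]} (hs : Irr s) : ∃ p q : ℂ, p ≠ 0 ∧ s = C p * X + C q := by
  have hirr : Irreducible s := by
    constructor
    · intro hu
      obtain ⟨r, _, hr⟩ := Polynomial.isUnit_iff.1 hu
      exact hs.1 ((isC_iff _).2 ⟨r, hr.symm⟩)
    · intro a b hab
      have h0 : s ≠ 0 := fun h => hs.1 (Or.inl h)
      rcases hs.2 a b hab with h | h
      · left
        rcases h with h | ⟨u, hu⟩
        · exact absurd (by rw [hab, h, zero_mul]) h0
        · exact IsUnit.of_mul_eq_one _ hu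
      · right
        rcases h with h | ⟨u, hu⟩
        · exact absurd (by rw [hab, h, mul_zero]) h0
        · exact IsUnit.of_mul_eq_one _ hu
  have hd : s.degree = 1 := IsAlgClosed.degree_eq_one_of_irreducible ℂ hirr
  have h1 := Polynomial.eq_X_add_C_of_degree_le_one (le_of_eq hd)
  refine ⟨s.coeff 1, s.coeff 0, ?_, h1⟩
  intro h
  rw [h] at h1
  exact hs.1 ((isC_iff _).2 ⟨s.coeff 0, by rw [h1]; simp⟩)

/-- `x` divides `y` -/
def Dv (x y : ℂ[X]) : Prop := ∃ u, y = x * u

/-- The comparison of the degrees of nonconstant polynomials, first-order. -/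
def Le (s f g : ℂ[X]) : Prop :=
  ∀ c, IsC c → ∃ d, IsC d ∧ ∃ h,
    (∀ a, IsC a → Dv (s - a) (f - c) → ∃ b, IsC b ∧ Dv (s - a) (h - b) ∧ Dv (s - b) (g - d)) ∧
    (∀ a, IsC a → ∀ a', IsC a' → ∀ b, IsC b → Dv (s - a) (f - c) → Dv (s - a') (f - c) →
      Dv (s - a) (h - b) → Dv (s - a') (h - b) → a = a')

theorem dv_iff {p q : ℂ} (hp : p ≠ 0) (a : ℂ) (f : ℂ[X]) (b : ℂ) :
    Dv ((C p * X + C q) - C a) (f - C b) ↔ f.eval ((a - q) / p) = b := by
  have e : (C p * X + C q) - C a = C p * (X - C ((a - q) / p)) := by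
    rw [mul_sub, ← C_mul, mul_div_cancel₀ _ hp, C_sub]
    ring
  have h1 : Dv ((C p * X + C q) - C a) (f - C b) ↔ (X - C ((a - q) / p)) ∣ (f - C b) := by
    rw [e]
    constructor
    · rintro ⟨u, hu⟩
      exact ⟨C p * u, by rw [hu]; ring⟩
    · rintro ⟨u, hu⟩
      refine ⟨C p⁻¹ * u, ?_⟩
      rw [hu]
      have : C p * (X - C ((a - q) / p)) * (C p⁻¹ * u)
          = (C p * C p⁻¹) * ((X - C ((a - q) / p)) * u) := by ring
      rw [this, ← C_mul, mul_inv_cancel₀ hp, C_1, one_mul]
  rw [h1, dvd_iff_isRoot, IsRoot.def, eval_sub, eval_C, sub_eq_zero]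

/-- For a nonconstant `g` there is a `d` such that `g - d` has `deg g` distinct zeros. -/
theorem exists_card (g : ℂ[X]) (hg : 0 < g.natDegree) :
    ∃ d : ℂ, (g - C d).roots.toFinset.card = g.natDegree := by
  have hd0 : derivative g ≠ 0 := by
    intro h
    have := Polynomial.derivative_eq_zero.1 h
    omega
  obtain ⟨d, hd⟩ : ∃ d : ℂ, d ∉ ((derivative g).roots.toFinset.image fun z => g.eval z) :=
    Infinite.exists_notMem_finset _
  refine ⟨d, ?_⟩
  have hne : g - C d ≠ 0 := by
    intro h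
    have h2 : g = C d := sub_eq_zero.1 h
    rw [h2] at hg
    simp at hg
  have hnd : (g - C d).roots.Nodup := by
    rw [Multiset.nodup_iff_count_le_one]
    intro z
    rw [count_roots]
    by_contra hlt
    push Not at hlt
    have h1 : 1 < (g - C d).rootMultiplicity z := hlt
    have hroot : (g - C d).IsRoot z := by
      rw [← rootMultiplicity_pos hne]; omega
    have h2 := (one_lt_rootMultiplicity_iff_isRoot hne).1 h1
    apply hd
    rw [Finset.mem_image]
    refine ⟨z, ?_, ?_⟩
    · rw [Multiset.mem_toFinset, mem_roots hd0]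
      have := h2.2
      simpa using this
    · have := h2.1
      rw [IsRoot.def, eval_sub, eval_C, sub_eq_zero] at this
      exact this
  rw [Multiset.toFinset_card_of_nodup hnd]
  have := splits_iff_card_roots.1 (IsAlgClosed.splits (g - C d))
  rw [this, natDegree_sub_C]

theorem card_roots_le (g : ℂ[X]) (d : ℂ) : (g - C d).roots.toFinset.card ≤ g.natDegree :=
  calc (g - C d).roots.toFinset.card ≤ Multiset.card (g - C d).roots :=
        Multiset.toFinset_card_le _
    _ ≤ (g - C d).natDegree := card_roots' _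
    _ = g.natDegree := natDegree_sub_C

theorem ne_const {g : ℂ[X]} (hg : 0 < g.natDegree) (d : ℂ) : g - C d ≠ 0 := by
  intro h
  have h2 : g = C d := sub_eq_zero.1 h
  rw [h2] at hg
  simp at hg

theorem le_iff {s f g : ℂ[X]} (hs : Irr s) (hf : 0 < f.natDegree) (hg : 0 < g.natDegree) :
    Le s f g ↔ f.natDegree ≤ g.natDegree := by
  obtain ⟨p, q, hp, rfl⟩ := hs.linear
  constructor
  · intro h
    obtain ⟨c, hc⟩ := exists_card f hf
    obtain ⟨d', hd', h', h1, h2⟩ := h (C c) ((isC_iff _).2 ⟨c, rfl⟩)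
    obtain ⟨d, rfl⟩ := (isC_iff _).1 hd'
    rw [← hc]
    refine le_trans ?_ (card_roots_le g d)
    -- the map z ↦ zero addressed by the value of h at z
    refine Finset.card_le_card_of_injOn (fun z => (h'.eval z - q) / p) ?_ ?_
    · intro z hz
      have hz' : f.eval z = c := by
        have := (mem_roots (ne_const hf c)).1 (Multiset.mem_toFinset.1 hz)
        rw [IsRoot.def, eval_sub, eval_C, sub_eq_zero] at this
        exact this
      have e : (p * z + q - q) / p = z := by field_simp; ring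
      obtain ⟨b', hb', h3, h4⟩ := h1 (C (p * z + q)) ((isC_iff _).2 ⟨_, rfl⟩)
        ((dv_iff hp _ _ _).2 (by rw [e]; exact hz'))
      obtain ⟨b, rfl⟩ := (isC_iff _).1 hb'
      rw [dv_iff hp] at h3 h4
      rw [e] at h3
      show (h'.eval z - q) / p ∈ _
      rw [h3]
      rw [Finset.mem_coe, Multiset.mem_toFinset, mem_roots (ne_const hg d), IsRoot.def, eval_sub,
        eval_C, sub_eq_zero]
      exact h4
    · intro z hz w hw hzw
      have hz' : f.eval z = c := by
        have := (mem_roots (ne_const hf c)).1 (Multiset.mem_toFinset.1 hz)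
        rw [IsRoot.def, eval_sub, eval_C, sub_eq_zero] at this
        exact this
      have hw' : f.eval w = c := by
        have := (mem_roots (ne_const hf c)).1 (Multiset.mem_toFinset.1 hw)
        rw [IsRoot.def, eval_sub, eval_C, sub_eq_zero] at this
        exact this
      have e : (p * z + q - q) / p = z := by field_simp; ring
      have e' : (p * w + q - q) / p = w := by field_simp; ring
      have hzw' : h'.eval z = h'.eval w := by
        have h5 : (h'.eval z - q) / p = (h'.eval w - q) / p := hzw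
        rw [div_left_inj' hp] at h5
        exact sub_left_injective h5
      have h6 := h2 (C (p * z + q)) ((isC_iff _).2 ⟨_, rfl⟩) (C (p * w + q))
        ((isC_iff _).2 ⟨_, rfl⟩) (C (h'.eval z)) ((isC_iff _).2 ⟨_, rfl⟩)
        ((dv_iff hp _ _ _).2 (by rw [e]; exact hz')) ((dv_iff hp _ _ _).2 (by rw [e']; exact hw'))
        ((dv_iff hp _ _ _).2 (by rw [e])) ((dv_iff hp _ _ _).2 (by rw [e']; exact hzw'.symm))
      have h7 : p * z + q = p * w + q := C_injective h6
      have h8 : p * z = p * w := add_right_cancel h7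
      exact mul_left_cancel₀ hp h8
  · intro h c' hc'
    obtain ⟨c, rfl⟩ := (isC_iff _).1 hc'
    obtain ⟨d, hd⟩ := exists_card g hg
    refine ⟨C d, (isC_iff _).2 ⟨d, rfl⟩, ?_⟩
    have hcard : (f - C c).roots.toFinset.card ≤ (g - C d).roots.toFinset.card :=
      (card_roots_le f c).trans (h.trans hd.ge)
    obtain ⟨φ, hφ1, hφ2⟩ : ∃ φ : ℂ → ℂ, (∀ z ∈ (f - C c).roots.toFinset,
        φ z ∈ (g - C d).roots.toFinset) ∧ Set.InjOn φ ((f - C c).roots.toFinset : Set ℂ) := by
      obtain ⟨t, ht1, ht2⟩ := Finset.exists_subset_card_eq hcard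
      let E := Finset.equivOfCardEq ht2.symm
      classical
      refine ⟨fun z => if hz : z ∈ (f - C c).roots.toFinset then (E ⟨z, hz⟩ : ℂ) else 0, ?_, ?_⟩
      · intro z hz
        simp only [hz, dif_pos]
        exact ht1 (E ⟨z, hz⟩).2
      · intro z hz w hw hzw
        have hz' : z ∈ (f - C c).roots.toFinset := hz
        have hw' : w ∈ (f - C c).roots.toFinset := hw
        simp only [hz', hw', dif_pos] at hzw
        have := E.injective (Subtype.ext hzw)
        exact congrArg Subtype.val this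
    refine ⟨Lagrange.interpolate (f - C c).roots.toFinset id (fun z => p * φ z + q), ?_, ?_⟩
    · intro a' ha' hdv
      obtain ⟨a, rfl⟩ := (isC_iff _).1 ha'
      rw [dv_iff hp] at hdv
      have hmem : (a - q) / p ∈ (f - C c).roots.toFinset := by
        rw [Multiset.mem_toFinset, mem_roots (ne_const hf c), IsRoot.def, eval_sub, eval_C,
          sub_eq_zero]
        exact hdv
      refine ⟨C (p * φ ((a - q) / p) + q), (isC_iff _).2 ⟨_, rfl⟩, ?_, ?_⟩
      · rw [dv_iff hp]
        exact Lagrange.eval_interpolate_at_node (v := id) _ (Set.injOn_id _) hmem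
      · rw [dv_iff hp]
        have e : (p * φ ((a - q) / p) + q - q) / p = φ ((a - q) / p) := by field_simp; ring
        rw [e]
        have := hφ1 _ hmem
        rw [Multiset.mem_toFinset, mem_roots (ne_const hg d), IsRoot.def, eval_sub, eval_C,
          sub_eq_zero] at this
        exact this
    · intro a1 ha1 a2 ha2 b' hb' h1 h2 h3 h4
      obtain ⟨a, rfl⟩ := (isC_iff _).1 ha1
      obtain ⟨a', rfl⟩ := (isC_iff _).1 ha2
      obtain ⟨b, rfl⟩ := (isC_iff _).1 hb'
      rw [dv_iff hp] at h1 h2 h3 h4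
      have hmem : (a - q) / p ∈ (f - C c).roots.toFinset := by
        rw [Multiset.mem_toFinset, mem_roots (ne_const hf c), IsRoot.def, eval_sub, eval_C,
          sub_eq_zero]
        exact h1
      have hmem' : (a' - q) / p ∈ (f - C c).roots.toFinset := by
        rw [Multiset.mem_toFinset, mem_roots (ne_const hf c), IsRoot.def, eval_sub, eval_C,
          sub_eq_zero]
        exact h2
      have e3 := Lagrange.eval_interpolate_at_node (v := id) (fun z => p * φ z + q)
        (Set.injOn_id _) hmem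
      have e4 := Lagrange.eval_interpolate_at_node (v := id) (fun z => p * φ z + q)
        (Set.injOn_id _) hmem'
      simp only [id] at e3 e4
      rw [h3] at e3
      rw [h4] at e4
      have e5 : p * φ ((a - q) / p) = p * φ ((a' - q) / p) := by
        have : p * φ ((a - q) / p) + q = p * φ ((a' - q) / p) + q := e3.symm.trans e4
        exact add_right_cancel this
      have e6 := hφ2 hmem hmem' (mul_left_cancel₀ hp e5)
      have e7 : a - q = a' - q := by rwa [div_left_inj' hp] at e6
      rw [sub_left_injective e7]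

/-- The first-order description of equality of degrees. -/
def EqDeg (f g : ℂ[X]) : Prop :=
  (f = 0 ∧ g = 0) ∨ ((∃ u, f * u = 1) ∧ (∃ u, g * u = 1)) ∨
    ((¬ IsC f ∧ ¬ IsC g) ∧ ∃ s, Irr s ∧ Le s f g ∧ Le s g f)

theorem natDegree_pos_iff (f : ℂ[X]) : 0 < f.natDegree ↔ ¬ IsC f := by
  rw [isC_iff, Nat.pos_iff_ne_zero, ne_eq, not_iff_not]
  constructor
  · intro h
    exact ⟨f.coeff 0, eq_C_of_natDegree_eq_zero h⟩
  · rintro ⟨c, rfl⟩
    simp

theorem unit_iff (f : ℂ[X]) : (∃ u, f * u = 1) ↔ f.degree = 0 := by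
  rw [← isUnit_iff_degree_eq_zero]
  constructor
  · rintro ⟨u, hu⟩
    exact IsUnit.of_mul_eq_one _ hu
  · intro h
    exact h.exists_right_inv

theorem eqDeg_iff (f g : ℂ[X]) : EqDeg f g ↔ f.degree = g.degree := by
  constructor
  · rintro (⟨rfl, rfl⟩ | ⟨h1, h2⟩ | ⟨⟨h1, h2⟩, s, hs, h3, h4⟩)
    · rfl
    · rw [unit_iff] at h1 h2
      rw [h1, h2]
    · rw [← natDegree_pos_iff] at h1 h2
      rw [le_iff hs h1 h2] at h3
      rw [le_iff hs h2 h1] at h4
      have hf0 : f ≠ 0 := by rintro rfl; simp at h1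
      have hg0 : g ≠ 0 := by rintro rfl; simp at h2
      rw [degree_eq_natDegree hf0, degree_eq_natDegree hg0, le_antisymm h3 h4]
  · intro h
    by_cases hf : f = 0
    · subst hf
      left
      refine ⟨rfl, ?_⟩
      rw [degree_zero] at h
      exact degree_eq_bot.1 h.symm
    · have hg : g ≠ 0 := by
        rintro rfl
        rw [degree_zero] at h
        exact hf (degree_eq_bot.1 h)
      right
      by_cases h0 : f.degree = 0
      · left
        rw [unit_iff, unit_iff]
        exact ⟨h0, h ▸ h0⟩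
      · right
        have hn : f.natDegree = g.natDegree := natDegree_eq_of_degree_eq h
        have hpf : 0 < f.natDegree := by
          rw [Nat.pos_iff_ne_zero]
          intro h1
          apply h0
          rw [degree_eq_natDegree hf, h1]
          rfl
        have hpg : 0 < g.natDegree := hn ▸ hpf
        refine ⟨⟨(natDegree_pos_iff f).1 hpf, (natDegree_pos_iff g).1 hpg⟩, X, irr_X, ?_, ?_⟩
        · rw [le_iff irr_X hpf hpg]; exact hn.le
        · rw [le_iff irr_X hpg hpf]; exact hn.ge

end Poly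

section Final

variable [FirstOrder.Ring.CompatibleRing ℂ[X]]

theorem dp_isC (m : ℕ) (hm : m ≠ 20) : DP (fun v : ℕ → ℂ[X] => IsC (v m)) :=
  (((DP.eq (DT.var m) DT.zero).or
    ((DP.eq ((DT.var m).mul (DT.var 20)) DT.one).ex 20))).congr
    (fun v => by simp [IsC, hm])

theorem dp_unit (m : ℕ) (hm : m ≠ 20) : DP (fun v : ℕ → ℂ[X] => ∃ u, v m * u = 1) :=
  ((DP.eq ((DT.var m).mul (DT.var 20)) DT.one).ex 20).congr (fun v => by simp [hm])

theorem dp_dv (i j k l : ℕ) (hi : i ≠ 20) (hj : j ≠ 20) (hk : k ≠ 20) (hl : l ≠ 20) :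
    DP (fun v : ℕ → ℂ[X] => Dv (v i - v j) (v k - v l)) :=
  ((DP.eq ((DT.var k).sub (DT.var l)) (((DT.var i).sub (DT.var j)).mul (DT.var 20))).ex 20).congr
    (fun v => by simp [Dv, hi, hj, hk, hl])

theorem dp_irr : DP (fun v : ℕ → ℂ[X] => Irr (v 2)) :=
  ((dp_isC 2 (by norm_num)).not.and
    ((((DP.eq (DT.var 2) ((DT.var 3).mul (DT.var 4))).imp
      ((dp_isC 3 (by norm_num)).or (dp_isC 4 (by norm_num)))).all 4).all 3)).congr
    (fun v => by simp [Irr])

theorem dp_le (i j : ℕ) (hi : i < 2) (hj : j < 2) :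
    DP (fun v : ℕ → ℂ[X] => Le (v 2) (v i) (v j)) := by
  have a3 : i ≠ 3 := by omega
  have a4 : i ≠ 4 := by omega
  have a5 : i ≠ 5 := by omega
  have a6 : i ≠ 6 := by omega
  have a7 : i ≠ 7 := by omega
  have a8 : i ≠ 8 := by omega
  have b3 : j ≠ 3 := by omega
  have b4 : j ≠ 4 := by omega
  have b5 : j ≠ 5 := by omega
  have b6 : j ≠ 6 := by omega
  have b7 : j ≠ 7 := by omega
  have b8 : j ≠ 8 := by omega
  have H1 : DP (fun v : ℕ → ℂ[X] => ∀ a, IsC a → Dv (v 2 - a) (v i - v 3) →
      ∃ b, IsC b ∧ Dv (v 2 - a) (v 5 - b) ∧ Dv (v 2 - b) (v j - v 4)) :=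
    (((dp_isC 6 (by norm_num)).imp ((dp_dv 2 6 i 3 (by norm_num) (by norm_num) (by omega)
      (by norm_num)).imp (((dp_isC 7 (by norm_num)).and
        ((dp_dv 2 6 5 7 (by norm_num) (by norm_num) (by norm_num) (by norm_num)).and
          (dp_dv 2 7 j 4 (by norm_num) (by norm_num) (by omega) (by norm_num)))).ex 7))).all 6).congr
      (fun v => by simp [a6, b6, b7])
  have H2 : DP (fun v : ℕ → ℂ[X] => ∀ a, IsC a → ∀ a', IsC a' → ∀ b, IsC b →
      Dv (v 2 - a) (v i - v 3) → Dv (v 2 - a') (v i - v 3) →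
      Dv (v 2 - a) (v 5 - b) → Dv (v 2 - a') (v 5 - b) → a = a') :=
    (((dp_isC 6 (by norm_num)).imp (((dp_isC 8 (by norm_num)).imp (((dp_isC 7 (by norm_num)).imp
      ((dp_dv 2 6 i 3 (by norm_num) (by norm_num) (by omega) (by norm_num)).imp
        ((dp_dv 2 8 i 3 (by norm_num) (by norm_num) (by omega) (by norm_num)).imp
          ((dp_dv 2 6 5 7 (by norm_num) (by norm_num) (by norm_num) (by norm_num)).imp
            ((dp_dv 2 8 5 7 (by norm_num) (by norm_num) (by norm_num) (by norm_num)).imp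
              (DP.eq (DT.var 6) (DT.var 8))))))).all 7)).all 8)).all 6).congr
      (fun v => by simp [a6, a7, a8])
  refine ((((dp_isC 3 (by norm_num)).imp (((dp_isC 4 (by norm_num)).and
    ((H1.and H2).ex 5)).ex 4)).all 3)).congr (fun v => ?_)
  simp [Le, a3, a4, a5, b3, b4, b5]

theorem dp_eqDeg : DP (fun v : ℕ → ℂ[X] => EqDeg (v 0) (v 1)) :=
  (((DP.eq (DT.var 0) DT.zero).and (DP.eq (DT.var 1) DT.zero)).or
    (((dp_unit 0 (by norm_num)).and (dp_unit 1 (by norm_num))).or
      (((dp_isC 0 (by norm_num)).not.and (dp_isC 1 (by norm_num)).not).and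
        ((dp_irr.and ((dp_le 0 1 (by norm_num) (by norm_num)).and
          (dp_le 1 0 (by norm_num) (by norm_num)))).ex 2)))).congr
    (fun v => by simp [EqDeg])

end Final

/-- Let `ℂ[X]` carry its structure for the first-order language of rings.  The relation
`deg f = deg g` (where the zero polynomial has degree `⊥`) is definable in `ℂ[X]` by a formula
of the language of rings without parameters. -/
theorem result :
    letI := FirstOrder.Ring.compatibleRingOfRing ℂ[X]
    (∅ : Set ℂ[X]).Definable Language.ring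
      {v : Fin 2 → ℂ[X] | (v 0).degree = (v 1).degree} := by
  let _ := FirstOrder.Ring.compatibleRingOfRing ℂ[X]
  rw [Set.empty_definable_iff]
  obtain ⟨φ, hφ⟩ := dp_eqDeg
  refine ⟨φ.relabel (fun n => if n = 0 then (0 : Fin 2) else 1), ?_⟩
  ext v
  rw [Set.mem_ofPred_eq, Set.mem_ofPred_eq, Formula.realize_relabel, hφ]
  exact (eqDeg_iff _ _).symm

end Pool.Agent.Results.MP_d395f7_lc.EqualDegreeDefinable
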